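import Pool.Agent.helper15.DH.Spec

/-!
# QLO: lower bound of the weighted double sum
-/

set_option autoImplicit false

open Complex MeasureTheory

namespace Pool.Agent.DH

open Pool.Agent.helper84.DM Pool.Agent.helper78.ED

theorem QLO_zero (L : ℕ) : 0 ∉ IL L := by
  simp [IL]

theorem QLO (h1 : EXPN_stmt) (h2 : QID_stmt) : QLO_stmt := by
  intro Z f V L hV hf
  have e1 := h1 Z (fun ρ => ((f ρ : ℝ) : ℂ)) (IL L) (IL L) (fun _ => 1) (fun _ => 1)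
    (QLO_zero L) (QLO_zero L)
  have e2 : (((∑ x ∈ IL L, ∑ y ∈ IL L, ‖RR Z (fun ρ => ((f ρ : ℝ) : ℂ)) x y‖ ^ 2 : ℝ)) : ℂ) =
      ((∑ ρ ∈ Z, ∑ ρ' ∈ Z, f ρ * f ρ' * ‖PL (IL L) (ρ.im - ρ'.im)‖ ^ 2 : ℝ) : ℂ) := by
    have e3 : (∑ x ∈ IL L, ∑ y ∈ IL L, ‖RR Z (fun ρ => ((f ρ : ℝ) : ℂ)) x y‖ ^ 2 : ℝ) =
        (∑ x ∈ IL L, ∑ y ∈ IL L, (1 : ℝ) * (1 : ℝ) *
          ‖RR Z (fun ρ => ((f ρ : ℝ) : ℂ)) x y‖ ^ 2 : ℝ) := by
      refine Finset.sum_congr rfl fun x _ => Finset.sum_congr rfl fun y _ => ?_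
      rw [one_mul, one_mul]
    rw [e3, e1]
    push_cast
    refine Finset.sum_congr rfl fun ρ _ => Finset.sum_congr rfl fun ρ' _ => ?_
    rw [Complex.conj_ofReal]
    congr 1
    have e4 : (∑ x ∈ IL L, (1 : ℂ) * (x : ℂ) ^ (-((((ρ.im - ρ'.im : ℝ) : ℂ)) * I))) =
        PL (IL L) (ρ.im - ρ'.im) := by
      unfold PL
      refine Finset.sum_congr rfl fun x _ => ?_
      rw [one_mul]
    have e5 : (∑ x ∈ IL L, (1 : ℂ) * (x : ℂ) ^ (-(((ρ.im : ℂ) - (ρ'.im : ℂ)) * I))) =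
        PL (IL L) (ρ.im - ρ'.im) := by
      rw [← e4]
      push_cast
      rfl
    rw [e5, Complex.mul_conj, Complex.normSq_eq_norm_sq]
    push_cast
    rfl
  have e6 := Complex.ofReal_injective e2
  rw [e6, h2 Z L, Finset.mul_sum]
  refine Finset.sum_le_sum fun ρ hρ => ?_
  rw [Finset.mul_sum]
  refine Finset.sum_le_sum fun ρ' hρ' => ?_
  have h3 := hf ρ hρ
  have h4 := hf ρ' hρ'
  refine mul_le_mul_of_nonneg_right ?_ (by positivity)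
  rw [pow_two]
  exact mul_le_mul h3 h4 hV (hV.trans h3)

end Pool.Agent.DH
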